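import Mathlib

-- part Pool.Agent.Lib.MP_5939ed_al.Basic
section

set_option autoImplicit false

namespace Pool.Agent.Lib.MP_5939ed_al

open Equiv Finset

section Hamming

variable {X : Type*} [Fintype X] [DecidableEq X]

/-- Unnormalised Hamming distance of two permutations. -/
def hd (σ τ : Perm X) : ℕ := (univ.filter (fun i => σ i ≠ τ i)).card

lemma hd_comm (σ τ : Perm X) : hd σ τ = hd τ σ := by
  unfold hd
  congr 1
  ext i
  simp [ne_comm]

lemma hd_triangle (σ τ ρ : Perm X) : hd σ ρ ≤ hd σ τ + hd τ ρ := by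
  unfold hd
  refine le_trans (card_le_card ?_) (card_union_le _ _)
  intro i hi
  simp only [mem_filter, mem_univ, true_and, mem_union] at hi ⊢
  by_contra h
  push Not at h
  exact hi (h.1.trans h.2)

lemma hd_mul_left (ρ σ τ : Perm X) : hd (ρ * σ) (ρ * τ) = hd σ τ := by
  unfold hd
  congr 1
  ext i
  simp

lemma hd_mul_right (ρ σ τ : Perm X) : hd (σ * ρ) (τ * ρ) = hd σ τ := by
  unfold hd
  apply card_bij (fun i _ => ρ i)
  · intro i hi
    simp only [mem_filter, mem_univ, true_and] at hi ⊢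
    exact hi
  · intro i _ j _ h
    exact ρ.injective h
  · intro j hj
    refine ⟨ρ⁻¹ j, ?_, by simp⟩
    simp only [mem_filter, mem_univ, true_and] at hj ⊢
    simpa using hj

lemma hd_mul (σ τ σ' τ' : Perm X) : hd (σ * τ) (σ' * τ') ≤ hd σ σ' + hd τ τ' := by
  calc hd (σ * τ) (σ' * τ') ≤ hd (σ * τ) (σ' * τ) + hd (σ' * τ) (σ' * τ') := hd_triangle _ _ _
    _ = hd σ σ' + hd τ τ' := by rw [hd_mul_right, hd_mul_left]

lemma hd_inv (σ τ : Perm X) : hd σ⁻¹ τ⁻¹ = hd σ τ := by
  calc hd σ⁻¹ τ⁻¹ = hd (σ * σ⁻¹ * τ) (σ * τ⁻¹ * τ) := by rw [hd_mul_right, hd_mul_left]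
    _ = hd τ σ := by simp
    _ = hd σ τ := hd_comm _ _

lemma hd_permCongr {Y : Type*} [Fintype Y] [DecidableEq Y] (e : X ≃ Y) (σ τ : Perm X) :
    hd (e.permCongrHom σ) (e.permCongrHom τ) = hd σ τ := by
  unfold hd
  symm
  apply card_bij (fun i _ => e i)
  · intro i hi
    simpa using hi
  · intro i _ j _ h
    exact e.injective h
  · intro j hj
    refine ⟨e.symm j, ?_, by simp⟩
    simpa using hj

end Hamming

/-- In a finite group the two relations force `c` to commute with its conjugate by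
`b * a * b⁻¹`. -/
lemma commute_of_finite {G : Type*} [Group G] [Finite G] (n : ℕ) (a b c : G)
    (h1 : b⁻¹ * a * b = a ^ n) (h2 : a⁻¹ * c * a = c ^ n) :
    c * ((b * a * b⁻¹)⁻¹ * c * (b * a * b⁻¹)) = ((b * a * b⁻¹)⁻¹ * c * (b * a * b⁻¹)) * c := by
  have hord : orderOf (a ^ n) = orderOf a := by
    rw [← h1]
    have : b⁻¹ * a * b = (MulAut.conj b⁻¹) a := by simp
    rw [this]
    exact MulEquiv.orderOf_eq _ _
  have hpos : 0 < orderOf a := orderOf_pos a
  have hcop : n.Coprime (orderOf a) := by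
    rw [orderOf_pow] at hord
    have hdiv : Nat.gcd (orderOf a) n ∣ orderOf a := Nat.gcd_dvd_left _ _
    have := (Nat.div_eq_self.mp hord)
    rcases this with h | h
    · omega
    · exact Nat.Coprime.symm h
  obtain ⟨k, hk⟩ := exists_pow_eq_self_of_coprime hcop
  have hv : b * a * b⁻¹ = a ^ k := by
    have h3 : (b⁻¹ * a * b) ^ k = b⁻¹ * a ^ k * b := by
      have := conj_pow (a := b⁻¹) (b := a) (i := k)
      simpa using this
    rw [h1, hk] at h3
    calc b * a * b⁻¹ = b * (b⁻¹ * a ^ k * b) * b⁻¹ := by rw [← h3]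
      _ = a ^ k := by group
  have hc : ∀ j : ℕ, (a ^ j)⁻¹ * c * a ^ j = c ^ (n ^ j) := by
    intro j
    induction j with
    | zero => simp
    | succ j ih =>
      calc (a ^ (j + 1))⁻¹ * c * a ^ (j + 1) = a⁻¹ * ((a ^ j)⁻¹ * c * a ^ j) * a := by group
        _ = a⁻¹ * c ^ (n ^ j) * a := by rw [ih]
        _ = (a⁻¹ * c * a) ^ (n ^ j) := by
            have := conj_pow (a := a⁻¹) (b := c) (i := n ^ j)
            simpa using this.symm
        _ = c ^ (n ^ (j + 1)) := by rw [h2, ← pow_mul, pow_succ']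
  rw [hv, hc]
  exact (Commute.self_pow c _).eq

/-- The two words compared in the argument are `16`-Lipschitz apart. -/
lemma hd_words {X : Type*} [Fintype X] [DecidableEq X] (n : ℕ) (a b c a' b' c' : Perm X)
    (h1 : b'⁻¹ * a' * b' = a' ^ n) (h2 : a'⁻¹ * c' * a' = c' ^ n) :
    hd (c * ((b * a * b⁻¹)⁻¹ * c * (b * a * b⁻¹))) (((b * a * b⁻¹)⁻¹ * c * (b * a * b⁻¹)) * c)
      ≤ 4 * hd a a' + 8 * hd b b' + 4 * hd c c' := by
  have hv : hd (b * a * b⁻¹) (b' * a' * b'⁻¹) ≤ hd a a' + 2 * hd b b' := by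
    have e1 := hd_mul (b * a) b⁻¹ (b' * a') b'⁻¹
    have e2 := hd_mul b a b' a'
    rw [hd_inv] at e1
    omega
  set v := b * a * b⁻¹ with hvdef
  set v' := b' * a' * b'⁻¹ with hvdef'
  have hw : hd (v⁻¹ * c * v) (v'⁻¹ * c' * v') ≤ 2 * hd a a' + 4 * hd b b' + hd c c' := by
    have e1 := hd_mul (v⁻¹ * c) v (v'⁻¹ * c') v'
    have e2 := hd_mul v⁻¹ c v'⁻¹ c'
    rw [hd_inv] at e2
    omega
  have hcomm := commute_of_finite n a' b' c' h1 h2
  rw [← hvdef'] at hcomm
  set w := v⁻¹ * c * v with hwdef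
  set w' := v'⁻¹ * c' * v' with hwdef'
  have e1 := hd_triangle (c * w) (c' * w') (w * c)
  have e2 := hd_mul c w c' w'
  have e3 := hd_mul w' c' w c
  rw [hcomm] at e1
  rw [hd_comm w' w, hd_comm c' c] at e3
  rw [← hcomm] at e1
  have e4 : hd (c' * w') (w * c) = hd (w' * c') (w * c) := by rw [hcomm]
  omega

end Pool.Agent.Lib.MP_5939ed_al
end

-- part Pool.Agent.Lib.MP_5939ed_al.Construction
section

set_option autoImplicit false

namespace Pool.Agent.Lib.MP_5939ed_al

open Equiv Finset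

section Shears

variable (q : ℕ)

/-- Translation `(y, z) ↦ (y + 1, z)`. -/
def g0 : Perm (ZMod q × ZMod q) where
  toFun p := (p.1 + 1, p.2)
  invFun p := (p.1 - 1, p.2)
  left_inv p := by simp
  right_inv p := by simp

/-- Shear `(y, z) ↦ (y, z + y)`. -/
def g1 : Perm (ZMod q × ZMod q) where
  toFun p := (p.1, p.2 + p.1)
  invFun p := (p.1, p.2 - p.1)
  left_inv p := by simp
  right_inv p := by simp

lemma g0_pow (t : ℕ) (p : ZMod q × ZMod q) : (g0 q ^ t) p = (p.1 + t, p.2) := by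
  induction t with
  | zero => simp
  | succ t ih =>
    rw [pow_succ', Perm.mul_apply, ih]
    simp [g0, add_assoc]

lemma g1_pow (t : ℕ) (p : ZMod q × ZMod q) : (g1 q ^ t) p = (p.1, p.2 + t * p.1) := by
  induction t with
  | zero => simp
  | succ t ih =>
    rw [pow_succ', Perm.mul_apply, ih]
    simp [g1]
    ring

end Shears

lemma g0_g1_not_commute (n : ℕ) (hn : 1 ≤ n) (i j : ℕ) :
    g0 (n + 1) ^ (n ^ i) * g1 (n + 1) ^ (n ^ j) ≠ g1 (n + 1) ^ (n ^ j) * g0 (n + 1) ^ (n ^ i) := by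
  intro h
  have h0 := congrArg (fun σ : Perm (ZMod (n + 1) × ZMod (n + 1)) => (σ (0, 0)).2) h
  simp only [Perm.mul_apply, g0_pow, g1_pow] at h0
  have hn1 : (n : ZMod (n + 1)) = -1 := by
    have : ((n + 1 : ℕ) : ZMod (n + 1)) = 0 := ZMod.natCast_self _
    push_cast at this
    exact eq_neg_of_add_eq_zero_left this
  have : Fact (1 < n + 1) := ⟨by omega⟩
  simp only [Nat.cast_pow, hn1, mul_zero, add_zero, zero_add] at h0
  have hu : IsUnit ((-1 : ZMod (n + 1)) ^ j * (-1) ^ i) :=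
    (isUnit_one.neg.pow j).mul (isUnit_one.neg.pow i)
  rw [← h0] at hu
  exact not_isUnit_zero hu

section Model

variable {G : Type*} [Group G] {M : ℕ}

/-- The shift `(g, x) ↦ (g, x + 1)`. -/
def pa (G : Type*) (M : ℕ) : Perm (G × ZMod M) where
  toFun p := (p.1, p.2 + 1)
  invFun p := (p.1, p.2 - 1)
  left_inv p := by simp
  right_inv p := by simp

/-- The dilation `(g, x) ↦ (g, k x)` when `n k = 1`. -/
def pb (G : Type*) {M : ℕ} (n k : ZMod M) (h : n * k = 1) : Perm (G × ZMod M) where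
  toFun p := (p.1, k * p.2)
  invFun p := (p.1, n * p.2)
  left_inv p := by simp [← mul_assoc, h]
  right_inv p := by simp [← mul_assoc, mul_comm k n, h]

/-- The skew product `(g, x) ↦ (β x * g, x)`. -/
def pc (β : ZMod M → G) : Perm (G × ZMod M) where
  toFun p := (β p.2 * p.1, p.2)
  invFun p := ((β p.2)⁻¹ * p.1, p.2)
  left_inv p := by simp
  right_inv p := by simp

omit [Group G] in
lemma pa_pow (t : ℕ) (p : G × ZMod M) : (pa G M ^ t) p = (p.1, p.2 + t) := by
  induction t with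
  | zero => simp
  | succ t ih =>
    rw [pow_succ', Perm.mul_apply, ih]
    simp [pa, add_assoc]

lemma pc_pow (β : ZMod M → G) (t : ℕ) (p : G × ZMod M) :
    (pc β ^ t) p = (β p.2 ^ t * p.1, p.2) := by
  induction t with
  | zero => simp
  | succ t ih =>
    rw [pow_succ', Perm.mul_apply, ih]
    simp [pc, pow_succ', mul_assoc]

omit [Group G] in
lemma rel_one (n : ℕ) (k : ZMod M) (h : (n : ZMod M) * k = 1) :
    (pb G (n : ZMod M) k h)⁻¹ * pa G M * pb G (n : ZMod M) k h = pa G M ^ n := by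
  ext1 p
  rw [pa_pow]
  change (p.1, (n : ZMod M) * (k * p.2 + 1)) = _
  rw [mul_add, ← mul_assoc, h, one_mul, mul_one]

lemma rel_two_apply (β : ZMod M → G) (p : G × ZMod M) :
    ((pa G M)⁻¹ * pc β * pa G M) p = (β (p.2 + 1) * p.1, p.2) := by
  change (β (p.2 + 1) * p.1, p.2 + 1 - 1) = _
  simp

lemma conj_apply (β : ZMod M → G) (n k : ZMod M) (h : n * k = 1) (p : G × ZMod M) :
    ((pb G n k h * pa G M * (pb G n k h)⁻¹)⁻¹ * pc β * (pb G n k h * pa G M * (pb G n k h)⁻¹)) p
      = (β (p.2 + k) * p.1, p.2) := by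
  have hv : ∀ p : G × ZMod M, (pb G n k h * pa G M * (pb G n k h)⁻¹) p = (p.1, p.2 + k) := by
    intro p
    change (p.1, k * (n * p.2 + 1)) = _
    rw [mul_add, ← mul_assoc, mul_comm k n, h, one_mul, mul_one]
  rw [Perm.mul_apply, Perm.mul_apply, hv, Perm.inv_eq_iff_eq, hv]
  rfl

end Model

/-- The almost-action: exact first relation, second relation broken on at most `2 |G|` points,
and the two words differ on at least `|G| (k - 1)` points. -/
theorem exists_model (n k : ℕ) (hn : 2 ≤ n) (hk : 2 ≤ k) :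
    ∃ (N g : ℕ) (a b c : Perm (Fin N)), 0 < g ∧ N = g * (n * k - 1) ∧
      b⁻¹ * a * b = a ^ n ∧ hd (a⁻¹ * c * a) (c ^ n) ≤ 2 * g ∧
      g * (k - 1) ≤ hd (c * ((b * a * b⁻¹)⁻¹ * c * (b * a * b⁻¹)))
        (((b * a * b⁻¹)⁻¹ * c * (b * a * b⁻¹)) * c) := by
  classical
  obtain ⟨M, hM⟩ : ∃ M, n * k = M + 1 := ⟨n * k - 1, by
    have : 0 < n * k := by positivity
    omega⟩
  have hM2 : 2 * k ≤ M + 1 := by rw [← hM]; exact Nat.mul_le_mul_right k hn
  have : NeZero M := ⟨by omega⟩
  let G := Perm (ZMod (n + 1) × ZMod (n + 1))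
  have hnk : (n : ZMod M) * (k : ZMod M) = 1 := by
    have : ((n * k : ℕ) : ZMod M) = ((M + 1 : ℕ) : ZMod M) := by rw [hM]
    push_cast at this
    simpa using this
  let β : ZMod M → G := fun x =>
    if x.val < k then g0 (n + 1) ^ (n ^ x.val) else g1 (n + 1) ^ (n ^ x.val)
  let e : G × ZMod M ≃ Fin (Fintype.card (G × ZMod M)) := Fintype.equivFin _
  let a := pa G M
  let b := pb G (n : ZMod M) (k : ZMod M) hnk
  let c := pc β
  refine ⟨Fintype.card (G × ZMod M), Fintype.card G, e.permCongrHom a, e.permCongrHom b,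
    e.permCongrHom c, Fintype.card_pos, ?_, ?_, ?_, ?_⟩
  · rw [Fintype.card_prod, ZMod.card, hM]
    simp
  · rw [← map_inv, ← map_mul, ← map_mul, ← map_pow, rel_one]
  · rw [← map_inv, ← map_mul, ← map_mul, ← map_pow, hd_permCongr]
    have hsub : (univ.filter (fun i => (a⁻¹ * c * a) i ≠ (c ^ n) i)) ⊆
        (univ : Finset G) ×ˢ ({((k - 1 : ℕ) : ZMod M), ((M - 1 : ℕ) : ZMod M)} : Finset (ZMod M)) := by
      intro p hp
      simp only [mem_filter, mem_univ, true_and] at hp
      rw [rel_two_apply, pc_pow] at hp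
      simp only [mem_product, mem_univ, true_and, mem_insert, mem_singleton]
      by_contra hcon
      push Not at hcon
      apply hp
      have hx1 : p.2.val ≠ k - 1 := by
        intro h
        apply hcon.1
        rw [← h, ZMod.natCast_zmod_val]
      have hx2 : p.2.val ≠ M - 1 := by
        intro h
        apply hcon.2
        rw [← h, ZMod.natCast_zmod_val]
      have hlt := ZMod.val_lt p.2
      have hval : (p.2 + 1).val = p.2.val + 1 := by
        have h1 : (p.2 + 1) = ((p.2.val + 1 : ℕ) : ZMod M) := by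
          push_cast
          rw [ZMod.natCast_zmod_val]
        rw [h1, ZMod.val_natCast, Nat.mod_eq_of_lt (by omega)]
      have hβ : β (p.2 + 1) = β p.2 ^ n := by
        simp only [β, hval]
        by_cases h : p.2.val < k
        · rw [if_pos h, if_pos (by omega), ← pow_mul, pow_succ]
        · rw [if_neg h, if_neg (by omega), ← pow_mul, pow_succ]
      rw [hβ]
    refine le_trans (card_le_card hsub) ?_
    rw [card_product, card_univ, mul_comm]
    exact Nat.mul_le_mul_right _ card_le_two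
  · simp only [← map_inv, ← map_mul]
    rw [hd_permCongr]
    have hsub : (univ : Finset G) ×ˢ ((range (k - 1)).image (fun j : ℕ => (j : ZMod M))) ⊆
        (univ.filter (fun i => (c * ((b * a * b⁻¹)⁻¹ * c * (b * a * b⁻¹))) i ≠
          (((b * a * b⁻¹)⁻¹ * c * (b * a * b⁻¹)) * c) i)) := by
      intro p hp
      simp only [mem_product, mem_univ, true_and, mem_image, mem_range] at hp
      obtain ⟨j, hj, hjp⟩ := hp
      simp only [mem_filter, mem_univ, true_and]
      rw [Perm.mul_apply, conj_apply, Perm.mul_apply _ c, conj_apply]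
      intro h
      have h1 := congrArg Prod.fst h
      change β p.2 * (β (p.2 + k) * p.1) = β (p.2 + k) * (β p.2 * p.1) at h1
      rw [← mul_assoc, ← mul_assoc] at h1
      have h2 := mul_right_cancel h1
      have hv1 : p.2.val = j := by
        rw [← hjp, ZMod.val_natCast, Nat.mod_eq_of_lt (by omega)]
      have hv2 : (p.2 + k).val = j + k := by
        have h1 : (p.2 + k) = ((j + k : ℕ) : ZMod M) := by
          push_cast
          rw [hjp]
        rw [h1, ZMod.val_natCast, Nat.mod_eq_of_lt (by omega)]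
      simp only [β, hv1, hv2] at h2
      rw [if_pos (by omega), if_neg (by omega)] at h2
      exact g0_g1_not_commute n (by omega) _ _ h2
    refine le_trans ?_ (card_le_card hsub)
    rw [card_product, card_univ, card_image_of_injOn, card_range]
    intro i hi j hj hij
    simp only [coe_range, Set.mem_Iio] at hi hj
    have := congrArg ZMod.val hij
    simp only [ZMod.val_natCast] at this
    rwa [Nat.mod_eq_of_lt (by omega), Nat.mod_eq_of_lt (by omega)] at this

/-- For every `n ≥ 2` the presentation is not stable in permutations. -/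
theorem not_stable (n : ℕ) (hn : 2 ≤ n) :
    ¬ (∀ ε : ℝ, 0 < ε → ∃ δ : ℝ, 0 < δ ∧
      ∀ N : ℕ, ∀ a b c : Equiv.Perm (Fin N),
        ((Finset.univ.filter (fun i => (b⁻¹ * a * b) i ≠ (a ^ n) i)).card : ℝ) / N < δ →
        ((Finset.univ.filter (fun i => (a⁻¹ * c * a) i ≠ (c ^ n) i)).card : ℝ) / N < δ →
        ∃ a' b' c' : Equiv.Perm (Fin N),
          b'⁻¹ * a' * b' = a' ^ n ∧ a'⁻¹ * c' * a' = c' ^ n ∧
          ((Finset.univ.filter (fun i => a i ≠ a' i)).card : ℝ) / N < ε ∧
          ((Finset.univ.filter (fun i => b i ≠ b' i)).card : ℝ) / N < ε ∧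
          ((Finset.univ.filter (fun i => c i ≠ c' i)).card : ℝ) / N < ε) := by
  intro H
  have hn0 : (0 : ℝ) < n := by exact_mod_cast (by omega : 0 < n)
  have hn2 : (2 : ℝ) ≤ n := by exact_mod_cast hn
  obtain ⟨δ, hδ, H⟩ := H (1 / (32 * n)) (by positivity)
  obtain ⟨k0, hk0⟩ := exists_nat_gt (2 / δ)
  obtain ⟨N, g, a, b, c, hg, hN, h1, h2, h3⟩ := exists_model n (k0 + 2) hn (by omega)
  have hg0 : (0 : ℝ) < g := by exact_mod_cast hg
  have hk00 : (0 : ℝ) ≤ k0 := Nat.cast_nonneg _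
  have hNR : (N : ℝ) = g * (n * (k0 + 2) - 1) := by
    rw [hN]
    have : 1 ≤ n * (k0 + 2) := Nat.one_le_iff_ne_zero.mpr (by positivity)
    push_cast [Nat.cast_sub this]
    ring
  have hM : (k0 : ℝ) < n * (k0 + 2) - 1 := by nlinarith
  have hN0 : (0 : ℝ) < N := by rw [hNR]; apply mul_pos hg0; linarith
  obtain ⟨a', b', c', r1, r2, da, db, dc⟩ := H N a b c (by
      rw [h1]
      simpa using hδ) (by
      have h2' : ((hd (a⁻¹ * c * a) (c ^ n) : ℕ) : ℝ) ≤ 2 * g := by exact_mod_cast h2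
      change ((hd (a⁻¹ * c * a) (c ^ n) : ℕ) : ℝ) / N < δ
      rw [div_lt_iff₀ hN0]
      rw [div_lt_iff₀ hδ] at hk0
      have : (2 : ℝ) < δ * (n * (k0 + 2) - 1) := by nlinarith
      rw [hNR]
      nlinarith)
  have h4 := hd_words n a b c a' b' c' r1 r2
  have h5 : g * (k0 + 2 - 1) ≤ 4 * hd a a' + 8 * hd b b' + 4 * hd c c' := le_trans h3 h4
  have h6 : (g : ℝ) * (k0 + 1) ≤ 4 * (hd a a' : ℝ) + 8 * (hd b b' : ℝ) + 4 * (hd c c' : ℝ) := by
    have : k0 + 2 - 1 = k0 + 1 := by omega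
    rw [this] at h5
    exact_mod_cast h5
  change ((hd a a' : ℕ) : ℝ) / N < _ at da
  change ((hd b b' : ℕ) : ℝ) / N < _ at db
  change ((hd c c' : ℕ) : ℝ) / N < _ at dc
  rw [div_lt_div_iff₀ hN0 (by positivity)] at da db dc
  have h7 : (g : ℝ) * (k0 + 1) * (32 * n) < 16 * N := by nlinarith
  rw [hNR] at h7
  nlinarith [mul_pos hg0 hn0, mul_nonneg (mul_pos hg0 hn0).le hk00]

end Pool.Agent.Lib.MP_5939ed_al
end
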